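import Pool.Agent.Q204.ACH.Main

set_option autoImplicit false

open MeasureTheory Set Filter Topology
open scoped ENNReal

namespace Pool.Agent.Results.MP_efb25f_co.MaximalAntichain

/-- The unit cube `[0,1]^n` of Euclidean `n`-space. -/
def unitCube (n : ℕ) : Set (EuclideanSpace ℝ (Fin n)) := {x | ∀ i, 0 ≤ x i ∧ x i ≤ 1}

/-- The facet `x_j = 0` of the unit cube. -/
def facet (n : ℕ) (j : Fin n) : Set (EuclideanSpace ℝ (Fin n)) := {x | x ∈ unitCube n ∧ x j = 0}

/-- The `k`-dimensional Hausdorff measure (no normalising constant) of the unit `k`-cube. -/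
noncomputable def sigma (k : ℕ) : ℝ≥0∞ := μH[(k : ℝ)] (unitCube k)

/-- An `n`-cube antichain: a subset of `[0,1]^n` without two distinct points `x`, `y` such that
`x_i ≤ y_i` for every `i`. -/
def IsCubeAntichain {n : ℕ} (S : Set (EuclideanSpace ℝ (Fin n))) : Prop :=
  S ⊆ unitCube n ∧ ∀ x ∈ S, ∀ y ∈ S, (∀ i, x i ≤ y i) → x = y

open Pool.Agent.Q204.ACH

theorem cube_eq (n : ℕ) : unitCube n = cube n := rfl

/-- The function used in the first coordinate. -/
noncomputable def G (t : ℝ) : ℝ := 1 / 2 + Real.arctan t / Real.pi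

theorem G_diff : Differentiable ℝ G := by
  intro t
  unfold G
  exact (differentiableAt_const _).add ((Real.differentiableAt_arctan t).div_const _)

theorem G_mono : StrictMono G := by
  intro s t h
  have h1 := Real.arctan_strictMono h
  have h2 := Real.pi_pos
  unfold G
  have := (div_lt_div_iff_of_pos_right h2).2 h1
  linarith

theorem G_range : range G = Ioo 0 1 := by
  have hpi := Real.pi_pos
  ext y
  constructor
  · rintro ⟨t, rfl⟩
    have h1 := Real.arctan_lt_pi_div_two t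
    have h2 := Real.neg_pi_div_two_lt_arctan t
    unfold G
    constructor
    · have : -(1 / 2) < Real.arctan t / Real.pi := by
        rw [lt_div_iff₀ hpi]; linarith
      linarith
    · have : Real.arctan t / Real.pi < 1 / 2 := by
        rw [div_lt_iff₀ hpi]; linarith
      linarith
  · rintro ⟨h1, h2⟩
    have h3 : (y - 1 / 2) * Real.pi ∈ Ioo (-(Real.pi / 2)) (Real.pi / 2) := by
      constructor <;> nlinarith
    refine ⟨Real.tan ((y - 1 / 2) * Real.pi), ?_⟩
    unfold G
    rw [Real.arctan_tan h3.1 h3.2]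
    field_simp
    ring

theorem main (m : ℕ) (hm1 : 1 ≤ m) : ∃ S : Set (E (m + 1)), S ⊆ cube (m + 1) ∧ Anti S ∧
    MeasurableSet S ∧ μH[(m : ℝ)] S = ((m + 1 : ℕ) : ENNReal) * μH[(m : ℝ)] (cube m) := by
  obtain ⟨A, B, F, hA, hB, hA0, hB0, hFc, hFm, hFr, hFA, hAB⟩ := exists_singular m
  set Φ : Fin (m + 1) → ℝ → ℝ := fun i => if i = 0 then G else F with hΦ
  set A' : Fin (m + 1) → Set ℝ := fun i => if i = 0 then Bᶜ else A with hA'
  have Φ0 : Φ 0 = G := by simp [hΦ]
  have Φ1 : ∀ i, i ≠ 0 → Φ i = F := fun i hi => by simp [hΦ, hi]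
  have A0 : A' 0 = Bᶜ := by simp [hA']
  have A1 : ∀ i, i ≠ 0 → A' i = A := fun i hi => by simp [hA', hi]
  have hc : ∀ i, Continuous (Φ i) := by
    intro i
    by_cases hi : i = 0
    · subst hi; rw [Φ0]; exact G_diff.continuous
    · rw [Φ1 i hi]; exact hFc
  have hmono : ∀ i, StrictMono (Φ i) := by
    intro i
    by_cases hi : i = 0
    · subst hi; rw [Φ0]; exact G_mono
    · rw [Φ1 i hi]; exact hFm
  have hr : ∀ i, range (Φ i) = Ioo 0 1 := by
    intro i
    by_cases hi : i = 0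
    · subst hi; rw [Φ0]; exact G_range
    · rw [Φ1 i hi]; exact hFr
  have hAm : ∀ i, MeasurableSet (A' i) := by
    intro i
    by_cases hi : i = 0
    · subst hi; rw [A0]; exact hB.compl
    · rw [A1 i hi]; exact hA
  have hnull : ∀ i, volume (Φ i '' (A' i)ᶜ) = 0 := by
    intro i
    by_cases hi : i = 0
    · subst hi
      rw [A0, Φ0, compl_compl]
      exact addHaar_image_eq_zero_of_differentiableOn_of_addHaar_eq_zero volume
        G_diff.differentiableOn hB0
    · rw [A1 i hi, Φ1 i hi]; exact hFA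
  have hle : ∀ j, μH[(m : ℝ)] (cube m) ≤ μH[(m : ℝ)] (SS Φ A' j) := by
    intro j
    refine cube_le hr j (fun i _ => hnull i) ?_
    by_cases hj : j = 0
    · subst hj
      convert measure_empty (μ := (volume : Measure (Fin m → ℝ)))
      rw [eq_empty_iff_forall_notMem]
      rintro z ⟨t, _, htA, hs⟩
      rw [A0] at hs
      apply hs
      refine hAB t fun i => ?_
      have := htA i
      rwa [A1 _ (Fin.succAbove_ne 0 i)] at this
    · obtain ⟨k, rfl⟩ : ∃ k, m = k + 1 := ⟨m - 1, by omega⟩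
      have hj0 : j.succAbove 0 = 0 := Fin.succAbove_ne_zero_zero hj
      have h1 := fub (fun i : Fin (k + 1) => Φ (j.succAbove i)) (fun i => hc _) (fun i => hmono _)
        (by simp only [hj0]; rw [Φ0]; exact G_diff) hA hA0
      refine measure_mono_null ?_ h1
      rintro z ⟨t, ht, _, hs⟩
      rw [A1 j hj] at hs
      exact ⟨t, ht, hs⟩
  have hU := union_ge hc hmono hAm hle
  have hanti : Anti (⋃ j, SS Φ A' j) := by
    refine anti_sum hmono (Φ := Φ) ?_
    intro x hx
    obtain ⟨j, t, ht, rfl⟩ := mem_iUnion.1 hx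
    exact ⟨t, ht.1, rfl⟩
  have hcube : (⋃ j, SS Φ A' j) ⊆ cube (m + 1) := by
    intro x hx
    obtain ⟨j, t, ht, rfl⟩ := mem_iUnion.1 hx
    intro i
    have h1 : Φ i (t i) ∈ Ioo (0 : ℝ) 1 := by rw [← hr i]; exact mem_range_self _
    exact Ioo_subset_Icc_self h1
  obtain ⟨S', hS', hSm, hSc⟩ := cut_anti hm1 hanti hcube
    (MeasurableSet.iUnion fun j => SS_meas hc hmono hAm j) _ hU
  exact ⟨S', hS'.trans hcube, fun x hx y hy => hanti x (hS' hx) y (hS' hy), hSm, hSc⟩

theorem facet_eq (m : ℕ) (j : Fin (m + 1)) : facet (m + 1) j = ins j 0 '' cube m := by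
  ext x
  constructor
  · rintro ⟨hx, hx0⟩
    refine ⟨drop j x, fun i => hx _, ?_⟩
    have := ins_drop j x
    rwa [hx0] at this
  · rintro ⟨z, hz, rfl⟩
    refine ⟨fun i => ?_, ins_same j 0 z⟩
    rcases Fin.eq_self_or_eq_succAbove j i with rfl | ⟨k, rfl⟩
    · rw [ins_same]; norm_num
    · rw [ins_succAbove]; exact hz k

/-- For every `n ≥ 2` there is an `n`-cube antichain, moreover a Borel one, whose
`(n-1)`-dimensional Hausdorff measure is exactly `n` times that of the unit `(n-1)`-cube,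
which is positive and finite and is the measure of each facet `x_j = 0` of `[0,1]^n`. -/
theorem result (n : ℕ) (hn : 2 ≤ n) :
    (0 < sigma (n - 1) ∧ sigma (n - 1) < ⊤) ∧
    (∀ j : Fin n, μH[(n : ℝ) - 1] (facet n j) = sigma (n - 1)) ∧
    ∃ S : Set (EuclideanSpace ℝ (Fin n)), IsCubeAntichain S ∧ MeasurableSet S ∧
      μH[(n : ℝ) - 1] S = n * sigma (n - 1) := by
  obtain ⟨m, rfl⟩ : ∃ m, n = m + 1 := ⟨n - 1, by omega⟩
  have h1 : ((m + 1 : ℕ) : ℝ) - 1 = m := by push_cast; ring
  have h2 : m + 1 - 1 = m := by omega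
  rw [h1, h2]
  refine ⟨⟨cube_pos m, cube_fin m⟩, ?_, ?_⟩
  · intro j
    rw [facet_eq, (ins_isometry j 0).hausdorffMeasure_image (Or.inl (Nat.cast_nonneg m))]
    rfl
  · obtain ⟨S, hSc, hSa, hSm, hS⟩ := main m (by omega)
    exact ⟨S, ⟨hSc, hSa⟩, hSm, hS⟩

end Pool.Agent.Results.MP_efb25f_co.MaximalAntichain
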